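import Pool.Agent.Helper7.KT.St

/-!
# Project KT (MP_5176ab_co), module PSB: power sums
-/

set_option autoImplicit false

namespace Pool.Agent.Helper38.KT

open Finset SimpleGraph Filter Topology
open EX Pool.Agent.Helper7.KT

open scoped Classical

private theorem exists_x (T q ε : ℝ) (hq : 0 < q) (hε : 0 < ε) :
    ∃ x : ℝ, 0 < x ∧ (T + x * (T + 1)) ^ q ≤ T ^ q + ε := by
  have hc : Continuous fun x : ℝ => (T + x * (T + 1)) ^ q :=
    (Real.continuous_rpow_const hq.le).comp (by fun_prop)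
  have h0 : Tendsto (fun x : ℝ => (T + x * (T + 1)) ^ q) (𝓝 0) (𝓝 (T ^ q)) := by
    have := hc.tendsto 0
    simpa using this
  have h1 : ∀ᶠ x in 𝓝 (0 : ℝ), (T + x * (T + 1)) ^ q < T ^ q + ε :=
    h0.eventually_lt_const (by linarith)
  have h2 : ∀ᶠ x in 𝓝[>] (0 : ℝ), (T + x * (T + 1)) ^ q < T ^ q + ε :=
    nhdsWithin_le_nhds h1
  have h3 : ∀ᶠ x in 𝓝[>] (0 : ℝ), (0 : ℝ) < x := eventually_mem_nhdsWithin
  obtain ⟨x, hx1, hx2⟩ := (h2.and h3).exists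
  exact ⟨x, hx2, hx1.le⟩

private theorem lin_le (C x : ℝ) (hC : 0 ≤ C) (hx : 0 < x) (b n : ℕ) (hb : 2 ≤ b) :
    C * n ≤ x * (n : ℝ) ^ b + C ^ 2 / x := by
  have hn0 : (0 : ℝ) ≤ n := Nat.cast_nonneg n
  by_cases h : C / x ≤ n
  · have h1 : C ≤ x * n := by
      rw [div_le_iff₀ hx] at h
      linarith
    have h2 : (n : ℝ) ^ 2 ≤ (n : ℝ) ^ b := by
      rcases Nat.eq_zero_or_pos n with h0 | h0
      · subst h0
        simp [show b ≠ 0 by omega]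
      · exact pow_le_pow_right₀ (by exact_mod_cast h0) hb
    have h3 : C * n ≤ x * n * n := mul_le_mul_of_nonneg_right h1 hn0
    have h4 : x * (n : ℝ) ^ 2 ≤ x * (n : ℝ) ^ b := mul_le_mul_of_nonneg_left h2 hx.le
    have h5 : 0 ≤ C ^ 2 / x := by positivity
    nlinarith
  · push Not at h
    have h1 : C * n ≤ C * (C / x) := mul_le_mul_of_nonneg_left h.le hC
    have h2 : C * (C / x) = C ^ 2 / x := by ring
    have h3 : 0 ≤ x * (n : ℝ) ^ b := by positivity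
    linarith

private theorem tail_le (M ε e q : ℝ) (hM : 0 ≤ M) (hε : 0 < ε) (he : 1 ≤ e) (hq0 : 0 < q)
    (hq1 : q ≤ 1) (n : ℕ) :
    M * (n : ℝ) ^ (1 - q) ≤ ε * (n : ℝ) ^ (1 + e - q) + M * (1 + M / ε) := by
  have hn0 : (0 : ℝ) ≤ n := Nat.cast_nonneg n
  have hR : 0 ≤ M * (1 + M / ε) := by positivity
  have hL : 0 ≤ ε * (n : ℝ) ^ (1 + e - q) := mul_nonneg hε.le (Real.rpow_nonneg hn0 _)
  rcases Nat.eq_zero_or_pos n with h0 | h0
  · subst h0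
    have h1 : ((0 : ℕ) : ℝ) ^ (1 - q) ≤ 1 := by
      apply Real.rpow_le_one
      · simp
      · simp
      · linarith
    have h2 : M * ((0 : ℕ) : ℝ) ^ (1 - q) ≤ M * 1 := mul_le_mul_of_nonneg_left h1 hM
    have h3 : 0 ≤ M * (M / ε) := by positivity
    refine h2.trans (le_trans ?_ (le_add_of_nonneg_left hL))
    have h4 : M * (1 + M / ε) = M + M * (M / ε) := by ring
    rw [h4, mul_one]
    linarith
  · have hn1 : (1 : ℝ) ≤ n := by exact_mod_cast h0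
    have hnp : (0 : ℝ) < n := by linarith
    by_cases h : M / ε ≤ (n : ℝ) ^ e
    · have h1 : M ≤ ε * (n : ℝ) ^ e := by
        rw [div_le_iff₀ hε] at h
        linarith
      have h2 : (n : ℝ) ^ (1 + e - q) = (n : ℝ) ^ e * (n : ℝ) ^ (1 - q) := by
        rw [← Real.rpow_add hnp]
        congr 1
        ring
      have h3 : M * (n : ℝ) ^ (1 - q) ≤ ε * (n : ℝ) ^ e * (n : ℝ) ^ (1 - q) :=
        mul_le_mul_of_nonneg_right h1 (Real.rpow_nonneg hn0 _)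
      rw [h2]
      nlinarith
    · push Not at h
      have h1 : (n : ℝ) ^ (1 - q) ≤ (n : ℝ) ^ e :=
        Real.rpow_le_rpow_of_exponent_le hn1 (by linarith)
      have h2 : M * (n : ℝ) ^ (1 - q) ≤ M * (M / ε) :=
        mul_le_mul_of_nonneg_left (h1.trans h.le) hM
      have h4 : M * (1 + M / ε) = M + M * (M / ε) := by ring
      linarith

theorem hPSB (hPSA : StPSA) : StPSB := by
  intro b e T hb he heb hT ε hε
  have hbR : (2 : ℝ) ≤ b := by exact_mod_cast hb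
  have hb0 : (0 : ℝ) < b := by linarith
  have he0 : (0 : ℝ) < e := by linarith
  have hq0 : 0 < e / b := div_pos he0 hb0
  have hq1 : e / b ≤ 1 := (div_le_one hb0).2 heb
  obtain ⟨x, hx0, hx⟩ := exists_x T (e / b) (ε / 2) hq0 (by linarith)
  obtain ⟨C₁, hC₁, hA⟩ := hPSA b x hx0
  have hC2 : 0 ≤ C₁ ^ 2 / x := by positivity
  have hM0 : 0 ≤ (C₁ ^ 2 / x) ^ (e / b) := Real.rpow_nonneg hC2 _
  refine ⟨(C₁ ^ 2 / x) ^ (e / b) * (1 + (C₁ ^ 2 / x) ^ (e / b) / (ε / 2)), by positivity, ?_⟩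
  intro V S d n hS hsum
  have hn0 : (0 : ℝ) ≤ n := Nat.cast_nonneg n
  -- the power sum
  have h1 : ∑ v ∈ S, (d v : ℝ) ^ b ≤ (T + x * (T + 1)) * (n : ℝ) ^ b + C₁ ^ 2 / x := by
    have h2 : ∑ v ∈ S, (d v : ℝ) ^ b ≤
        ∑ v ∈ S, ((1 + x) * ((b.factorial : ℝ) * ((d v).choose b : ℝ)) + C₁) :=
      Finset.sum_le_sum fun v _ => hA (d v)
    rw [Finset.sum_add_distrib, Finset.sum_const, ← Finset.mul_sum, ← Finset.mul_sum,
      nsmul_eq_mul] at h2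
    have h3 : (S.card : ℝ) * C₁ ≤ C₁ * n := by
      rw [mul_comm]
      exact mul_le_mul_of_nonneg_left (by exact_mod_cast hS) hC₁
    have h4 : (b.factorial : ℝ) * (n.choose b : ℝ) ≤ (n : ℝ) ^ b := by
      have := Nat.choose_le_pow_div (α := ℝ) b n
      have hf : (0 : ℝ) < b.factorial := by exact_mod_cast b.factorial_pos
      rw [le_div_iff₀ hf] at this
      linarith
    have h5 : ∑ v ∈ S, ((d v).choose b : ℝ) ≤ T * (n.choose b : ℝ) := by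
      have := hsum
      push_cast at this
      exact this
    have hf0 : (0 : ℝ) ≤ (b.factorial : ℝ) := Nat.cast_nonneg _
    have h6 : (b.factorial : ℝ) * ∑ v ∈ S, ((d v).choose b : ℝ) ≤ T * (n : ℝ) ^ b := by
      calc (b.factorial : ℝ) * ∑ v ∈ S, ((d v).choose b : ℝ)
          ≤ (b.factorial : ℝ) * (T * (n.choose b : ℝ)) := mul_le_mul_of_nonneg_left h5 hf0
        _ = T * ((b.factorial : ℝ) * (n.choose b : ℝ)) := by ring
        _ ≤ T * (n : ℝ) ^ b := mul_le_mul_of_nonneg_left h4 hT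
    have h7 : (1 + x) * ((b.factorial : ℝ) * ∑ v ∈ S, ((d v).choose b : ℝ)) ≤
        (1 + x) * (T * (n : ℝ) ^ b) := mul_le_mul_of_nonneg_left h6 (by linarith)
    have h8 := lin_le C₁ x hC₁ hx0 b n hb
    nlinarith
  -- the power means inequality
  have hp1 : (1 : ℝ) ≤ b / e := (one_le_div he0).2 heb
  have hd0 : ∀ v, (0 : ℝ) ≤ (d v : ℝ) ^ e := fun v => Real.rpow_nonneg (Nat.cast_nonneg _) _
  have h9 := Real.rpow_sum_le_const_mul_sum_rpow S (fun v => (d v : ℝ) ^ e) hp1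
  simp only [abs_of_nonneg (hd0 _)] at h9
  have h10 : ∀ v, ((d v : ℝ) ^ e) ^ ((b : ℝ) / e) = (d v : ℝ) ^ b := by
    intro v
    rw [← Real.rpow_mul (Nat.cast_nonneg _), mul_div_cancel₀ _ he0.ne', Real.rpow_natCast]
  simp only [h10] at h9
  have hs0 : 0 ≤ ∑ v ∈ S, (d v : ℝ) ^ e := Finset.sum_nonneg fun v _ => hd0 v
  have hb1 : 0 ≤ ∑ v ∈ S, (d v : ℝ) ^ b := Finset.sum_nonneg fun v _ => by positivity
  have h11 : (∑ v ∈ S, (d v : ℝ) ^ e) ^ ((b : ℝ) / e) ≤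
      (n : ℝ) ^ ((b : ℝ) / e - 1) * ((T + x * (T + 1)) * (n : ℝ) ^ b + C₁ ^ 2 / x) := by
    refine h9.trans ?_
    have h12 : (S.card : ℝ) ^ ((b : ℝ) / e - 1) ≤ (n : ℝ) ^ ((b : ℝ) / e - 1) :=
      Real.rpow_le_rpow (Nat.cast_nonneg _) (by exact_mod_cast hS) (by linarith)
    exact mul_le_mul h12 h1 hb1 (Real.rpow_nonneg hn0 _)
  have hK0 : 0 ≤ (T + x * (T + 1)) := by positivity
  have hKn : 0 ≤ (T + x * (T + 1)) * (n : ℝ) ^ b := by positivity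
  have h13 : ∑ v ∈ S, (d v : ℝ) ^ e ≤
      ((n : ℝ) ^ ((b : ℝ) / e - 1) * ((T + x * (T + 1)) * (n : ℝ) ^ b + C₁ ^ 2 / x)) ^ (e / b) := by
    have h14 := Real.rpow_le_rpow (Real.rpow_nonneg hs0 _) h11 hq0.le
    have h14' : (b : ℝ) / e * (e / b) = 1 := by field_simp
    rwa [← Real.rpow_mul hs0, h14', Real.rpow_one] at h14
  have h15 : ((n : ℝ) ^ ((b : ℝ) / e - 1) * ((T + x * (T + 1)) * (n : ℝ) ^ b + C₁ ^ 2 / x)) ^ (e / b)
      = (n : ℝ) ^ (1 - e / b) * ((T + x * (T + 1)) * (n : ℝ) ^ b + C₁ ^ 2 / x) ^ (e / b) := by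
    rw [Real.mul_rpow (Real.rpow_nonneg hn0 _) (by positivity), ← Real.rpow_mul hn0]
    congr 2
    field_simp
  have h16 : ((T + x * (T + 1)) * (n : ℝ) ^ b + C₁ ^ 2 / x) ^ (e / b) ≤
      (T + x * (T + 1)) ^ (e / b) * (n : ℝ) ^ e + (C₁ ^ 2 / x) ^ (e / b) := by
    have h17 := Real.rpow_add_le_add_rpow hKn hC2 hq0.le hq1
    have h18 : ((T + x * (T + 1)) * (n : ℝ) ^ b) ^ (e / b) =
        (T + x * (T + 1)) ^ (e / b) * (n : ℝ) ^ e := by
      rw [Real.mul_rpow hK0 (by positivity), ← Real.rpow_natCast, ← Real.rpow_mul hn0,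
        mul_div_cancel₀ _ hb0.ne']
    rwa [h18] at h17
  have hnq : 0 ≤ (n : ℝ) ^ (1 - e / b) := Real.rpow_nonneg hn0 _
  have h19 : (n : ℝ) ^ (1 - e / b) * (n : ℝ) ^ e = (n : ℝ) ^ (1 + e - e / b) := by
    rcases Nat.eq_zero_or_pos n with h0 | h0
    · subst h0
      rw [Nat.cast_zero, Real.zero_rpow he0.ne', mul_zero, Real.zero_rpow (by linarith)]
    · have hnp : (0 : ℝ) < n := by exact_mod_cast h0
      rw [← Real.rpow_add hnp]
      congr 1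
      ring
  have h20 := tail_le ((C₁ ^ 2 / x) ^ (e / b)) (ε / 2) e (e / b) hM0 (by linarith) he hq0 hq1 n
  have hE0 : 0 ≤ (n : ℝ) ^ (1 + e - e / b) := Real.rpow_nonneg hn0 _
  calc ∑ v ∈ S, (d v : ℝ) ^ e
      ≤ (n : ℝ) ^ (1 - e / b) * ((T + x * (T + 1)) * (n : ℝ) ^ b + C₁ ^ 2 / x) ^ (e / b) := by
        rw [← h15]; exact h13
    _ ≤ (n : ℝ) ^ (1 - e / b) *
        ((T + x * (T + 1)) ^ (e / b) * (n : ℝ) ^ e + (C₁ ^ 2 / x) ^ (e / b)) :=
        mul_le_mul_of_nonneg_left h16 hnq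
    _ = (T + x * (T + 1)) ^ (e / b) * ((n : ℝ) ^ (1 - e / b) * (n : ℝ) ^ e) +
        (C₁ ^ 2 / x) ^ (e / b) * (n : ℝ) ^ (1 - e / b) := by ring
    _ = (T + x * (T + 1)) ^ (e / b) * (n : ℝ) ^ (1 + e - e / b) +
        (C₁ ^ 2 / x) ^ (e / b) * (n : ℝ) ^ (1 - e / b) := by rw [h19]
    _ ≤ (T ^ (e / b) + ε / 2) * (n : ℝ) ^ (1 + e - e / b) +
        (ε / 2 * (n : ℝ) ^ (1 + e - e / b) +
          (C₁ ^ 2 / x) ^ (e / b) * (1 + (C₁ ^ 2 / x) ^ (e / b) / (ε / 2))) :=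
        add_le_add (mul_le_mul_of_nonneg_right hx hE0) h20
    _ = (T ^ (e / b) + ε) * (n : ℝ) ^ (1 + e - e / b) +
        (C₁ ^ 2 / x) ^ (e / b) * (1 + (C₁ ^ 2 / x) ^ (e / b) / (ε / 2)) := by ring

end Pool.Agent.Helper38.KT
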